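import Pool.Agent.Helper75.CG.Defs2

/-!
# The slope of `GG`
-/

set_option autoImplicit false

namespace Pool.Agent.Helper75.CG

open scoped Classical
open Finset
open Pool.Agent.Helper65.CliqueGame

namespace Setup

namespace SlopeAux

theorem pow_le_choose_mul (s m : ℕ) (h : m ≤ s) : s ^ m ≤ s.choose m * m ^ m := by
  have h1 : s ^ m * m.factorial ≤ s.choose m * m ^ m * m.factorial := by
    have e1 : s.choose m * m ^ m * m.factorial = s.descFactorial m * m ^ m := by
      rw [Nat.descFactorial_eq_factorial_mul_choose]; ring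
    rw [e1, ← Nat.descFactorial_self m, Nat.descFactorial_eq_prod_range,
      Nat.descFactorial_eq_prod_range]
    have e2 : s ^ m = ∏ _i ∈ range m, s := by simp
    have e3 : m ^ m = ∏ _i ∈ range m, m := by simp
    rw [e2, e3, ← Finset.prod_mul_distrib, ← Finset.prod_mul_distrib]
    apply Finset.prod_le_prod'
    intro i hi
    have hi' : i < m := Finset.mem_range.1 hi
    obtain ⟨a, rfl⟩ : ∃ a, m = i + a := ⟨m - i, by omega⟩
    obtain ⟨b, rfl⟩ : ∃ b, s = i + a + b := ⟨s - (i + a), by omega⟩
    have e4 : i + a - i = a := by omega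
    have e5 : i + a + b - i = a + b := by omega
    rw [e4, e5]
    nlinarith [Nat.zero_le (i * b)]
  exact Nat.le_of_mul_le_mul_right h1 (Nat.factorial_pos m)

end SlopeAux

variable {V Δ : Type} [Fintype V] [Fintype Δ] (X : Setup V Δ)

theorem NN_lower {j : ℕ} (hj : j < X.R) :
    (X.m : ℝ) * X.z j - X.m * Real.logb 2 X.m ≤ Real.logb 2 (X.NN j) := by
  have hb : X.bs j = X.m := by simp [bs, hj]
  have h1 := SlopeAux.pow_le_choose_mul (2 ^ X.z j) X.m (X.hz j hj)
  have hm := X.hm
  have hm0 : (0 : ℝ) < X.m := by positivity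
  have hc : 0 < (2 ^ X.z j).choose X.m := Nat.choose_pos (X.hz j hj)
  have h2 : (((2 : ℝ) ^ X.z j) ^ X.m) ≤ ((2 ^ X.z j).choose X.m : ℝ) * (X.m : ℝ) ^ X.m := by
    exact_mod_cast h1
  have h3 := Real.logb_le_logb_of_le (b := 2) (by norm_num) (by positivity) h2
  rw [Real.logb_mul (by positivity) (by positivity), Real.logb_pow, Real.logb_pow,
    Real.logb_pow, Real.logb_self_eq_one (by norm_num)] at h3
  unfold NN
  rw [hb]
  linarith

theorem NN_upper {j : ℕ} (hj : j < X.R) : Real.logb 2 (X.NN j) ≤ (X.m : ℝ) * X.z j := by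
  have hb : X.bs j = X.m := by simp [bs, hj]
  have hc : 0 < (2 ^ X.z j).choose X.m := Nat.choose_pos (X.hz j hj)
  have h1 : (2 ^ X.z j).choose X.m ≤ (2 ^ X.z j) ^ X.m := Nat.choose_le_pow _ _
  have h2 : ((2 ^ X.z j).choose X.m : ℝ) ≤ ((2 : ℝ) ^ X.z j) ^ X.m := by
    exact_mod_cast h1
  have h3 := Real.logb_le_logb_of_le (b := 2) (by norm_num) (by positivity) h2
  rw [Real.logb_pow, Real.logb_pow, Real.logb_self_eq_one (by norm_num)] at h3
  unfold NN
  rw [hb]
  linarith

namespace SlopeAux

theorem part_nonempty {S : Finset V} {δ : Δ} :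
    (X.part S δ).Nonempty ↔ δ ∈ S.image X.dis := by
  constructor
  · rintro ⟨x, hx⟩
    obtain ⟨h1, h2⟩ := Finset.mem_filter.1 hx
    exact Finset.mem_image.2 ⟨x, h1, h2⟩
  · intro h
    obtain ⟨x, h1, h2⟩ := Finset.mem_image.1 h
    exact ⟨x, Finset.mem_filter.2 ⟨h1, h2⟩⟩

theorem part_card_le' {S : Finset V} (hS : S ∈ X.SS0) (δ : Δ) :
    (X.part S δ).card ≤ X.bs (X.gen δ) := by
  obtain ⟨-, -, A, hA, hSA⟩ := Finset.mem_filter.1 hS
  have h1 : X.part S δ ⊆ X.part A δ := Finset.filter_subset_filter _ hSA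
  have h2 := Finset.card_le_card h1
  rcases hA.1 δ with h | h <;> omega

/-- the contribution of one district -/
noncomputable def fc (a : ℝ) (S : Finset V) (δ : Δ) : ℝ :=
  if (X.part S δ).Nonempty then
    ((X.y (X.gen δ) : ℝ) +
      if (X.part S δ).card < X.bs (X.gen δ) then (X.z (X.gen δ) : ℝ) * (X.part S δ).card else 0) -
      a * (X.part S δ).card
  else 0

theorem card_eq_sum (S : Finset V) : (S.card : ℝ) = ∑ δ, ((X.part S δ).card : ℝ) := by
  have h := Finset.card_eq_sum_card_fiberwise (f := X.dis) (s := S) (t := univ)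
    (fun x _ => Finset.mem_coe.2 (Finset.mem_univ _))
  rw [h]
  push_cast
  rfl

theorem cost_eq (a : ℝ) (S : Finset V) :
    X.cost S - a * S.card = ∑ δ, fc X a S δ := by
  have h1 : S.image X.dis = univ.filter (fun δ => (X.part S δ).Nonempty) := by
    ext δ
    simp only [Finset.mem_filter, Finset.mem_univ, true_and]
    exact (part_nonempty X).symm
  unfold cost
  rw [h1, Finset.sum_filter, card_eq_sum X S, Finset.mul_sum, ← Finset.sum_sub_distrib]
  apply Finset.sum_congr rfl
  intro δ _
  unfold fc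
  by_cases h : (X.part S δ).Nonempty
  · simp only [h, if_true]
  · simp only [h, if_false]
    rw [Finset.not_nonempty_iff_eq_empty.1 h]
    simp

end SlopeAux

open SlopeAux in
theorem GG_slope {g Γ Tm : ℝ} (hg : 0 ≤ g) (hΓ : 0 ≤ Γ)
    (hz : ∀ j < X.R, (2 * g + Γ) + X.m * Real.logb 2 X.m ≤ X.z j)
    (hy : ∀ j ≤ X.R, X.m * (2 * g + Γ) ≤ X.y j) :
    ∀ S ∈ X.SS0, ∀ T ∈ X.SS0, S ⊂ T →
      X.GG g Γ Tm T ≤ (2 : ℝ) ^ (-Γ) * X.GG g Γ Tm S *
        ∏ δ ∈ X.compl S T, (X.NN (X.gen δ) : ℝ) := by
  intro S hS T hT hST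
  set a : ℝ := 2 * g + Γ with ha
  have ha0 : 0 ≤ a := by positivity
  have hm := X.hm
  have hm2 : (2 : ℝ) ≤ X.m := by exact_mod_cast hm
  have hlogm : 0 ≤ Real.logb 2 X.m := Real.logb_nonneg (by norm_num) (by linarith)
  have hbm : ∀ j, X.bs j ≤ X.m := by
    intro j
    unfold bs
    split_ifs <;> omega
  -- the numbers of blocks
  have hNpos : ∀ j, 0 < X.NN j := by
    intro j
    unfold NN
    apply Nat.choose_pos
    unfold bs
    split_ifs with h
    · exact X.hz j h
    · exact Nat.one_le_two_pow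
  have hNlog : ∀ j, 0 ≤ Real.logb 2 (X.NN j) := by
    intro j
    apply Real.logb_nonneg (by norm_num)
    exact_mod_cast hNpos j
  -- the product of the numbers of blocks
  set Λ : ℝ := ∑ δ ∈ X.compl S T, Real.logb 2 (X.NN (X.gen δ)) with hΛ
  have hΛ0 : 0 ≤ Λ := Finset.sum_nonneg (fun δ _ => hNlog _)
  have hprod : ∏ δ ∈ X.compl S T, (X.NN (X.gen δ) : ℝ) = (2 : ℝ) ^ Λ := by
    rw [hΛ, Real.rpow_sum_of_pos (by norm_num)]
    apply Finset.prod_congr rfl
    intro δ _
    rw [Real.rpow_logb (by norm_num) (by norm_num)]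
    exact_mod_cast hNpos _
  -- district by district
  have hkey : ∀ δ, fc X a S δ ≤ fc X a T δ +
      if δ ∈ X.compl S T then Real.logb 2 (X.NN (X.gen δ)) else 0 := by
    intro δ
    have hsub : X.part S δ ⊆ X.part T δ := Finset.filter_subset_filter _ hST.subset
    have hst := Finset.card_le_card hsub
    have htb := part_card_le' X hT δ
    have hL0 : (0 : ℝ) ≤ if δ ∈ X.compl S T then Real.logb 2 (X.NN (X.gen δ)) else 0 := by
      split_ifs
      · exact hNlog _
      · exact le_refl _
    have hyδ : X.m * a ≤ X.y (X.gen δ) := hy _ (X.gen_le δ)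
    have hmem : δ ∈ X.compl S T ↔ (X.part S δ).Nonempty ∧ (X.part S δ).card < X.bs (X.gen δ) ∧
        (X.part T δ).card = X.bs (X.gen δ) := by
      unfold compl
      simp only [Finset.mem_filter, Finset.mem_univ, true_and]
    unfold fc
    by_cases hs0 : (X.part S δ).Nonempty
    · have ht0 : (X.part T δ).Nonempty := hs0.mono hsub
      simp only [hs0, ht0, if_true]
      have hspos : 0 < (X.part S δ).card := Finset.card_pos.2 hs0
      rcases Nat.eq_or_lt_of_le hst with heq | hlt
      · rw [heq]
        linarith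
      · have hsb : (X.part S δ).card < X.bs (X.gen δ) := by omega
        have hgen : X.gen δ < X.R := by
          by_contra hcon
          have : X.bs (X.gen δ) = 1 := by
            unfold bs; rw [if_neg hcon]
          omega
        have hbs : X.bs (X.gen δ) = X.m := by
          unfold bs; rw [if_pos hgen]
        have hzδ := hz _ hgen
        rw [if_pos hsb]
        have hlt' : ((X.part S δ).card : ℝ) + 1 ≤ (X.part T δ).card := by exact_mod_cast hlt
        by_cases htb' : (X.part T δ).card < X.bs (X.gen δ)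
        · rw [if_pos htb']
          have hza : a ≤ X.z (X.gen δ) := by nlinarith
          nlinarith
        · rw [if_neg htb']
          have hteq : (X.part T δ).card = X.bs (X.gen δ) := by omega
          have hin : δ ∈ X.compl S T := hmem.2 ⟨hs0, hsb, hteq⟩
          rw [if_pos hin]
          have hNl := X.NN_lower hgen
          rw [hteq, hbs] at hlt'
          rw [hteq, hbs]
          have hml : 0 ≤ (X.m : ℝ) * Real.logb 2 X.m := by positivity
          nlinarith
    · have hse : X.part S δ = ∅ := Finset.not_nonempty_iff_eq_empty.1 hs0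
      simp only [hs0, if_false]
      by_cases ht0 : (X.part T δ).Nonempty
      · simp only [ht0, if_true]
        have h1 : (0 : ℝ) ≤ if (X.part T δ).card < X.bs (X.gen δ) then
            (X.z (X.gen δ) : ℝ) * (X.part T δ).card else 0 := by
          split_ifs <;> positivity
        have h2 : ((X.part T δ).card : ℝ) ≤ X.m := by
          exact_mod_cast htb.trans (hbm _)
        nlinarith
      · simp only [ht0, if_false]
        linarith
  have hc : X.cost S - a * S.card ≤ (X.cost T - a * T.card) + Λ := by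
    rw [cost_eq, cost_eq]
    have e : Λ = ∑ δ, if δ ∈ X.compl S T then Real.logb 2 (X.NN (X.gen δ)) else 0 := by
      rw [hΛ, ← Finset.sum_filter]
      congr 1
      ext δ
      simp
    rw [e, ← Finset.sum_add_distrib]
    exact Finset.sum_le_sum (fun δ _ => hkey δ)
  have hcard : (S.card : ℝ) + 1 ≤ T.card := by
    exact_mod_cast Finset.card_lt_card hST
  have hmu : X.mu g Γ Tm S + Γ ≤ X.mu g Γ Tm T + Λ := by
    unfold mu
    rw [← ha]
    have h1 : min (X.cost S - a * S.card) Tm ≤ min (X.cost T - a * T.card) Tm + Λ := by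
      rcases le_total (X.cost T - a * T.card) Tm with h | h
      · rw [min_eq_left h]
        exact (min_le_left _ _).trans hc
      · rw [min_eq_right h]
        exact (min_le_right _ _).trans (by linarith)
    nlinarith
  rw [hprod]
  unfold GG
  rw [← Real.rpow_add (by norm_num), ← Real.rpow_add (by norm_num)]
  apply Real.rpow_le_rpow_of_exponent_le (by norm_num)
  linarith

end Setup

end Pool.Agent.Helper75.CG
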