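import Pool.Agent.Helper75.CG.Defs2

/-!
# Pairs and stars inside `S`, and the static inequality
-/

set_option autoImplicit false

namespace Pool.Agent.Helper75.CG

open scoped Classical
open Finset
open Pool.Agent.Helper65.CliqueGame

namespace Setup

variable {V Δ : Type} [Fintype V] [Fintype Δ] (X : Setup V Δ)

namespace PairsAux

theorem part_card_le' {S : Finset V} (hS : S ∈ X.SS0) (δ : Δ) :
    (X.part S δ).card ≤ X.bs (X.gen δ) := by
  obtain ⟨-, -, A, hA, hSA⟩ := Finset.mem_filter.1 hS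
  have h1 : X.part S δ ⊆ X.part A δ := Finset.filter_subset_filter _ hSA
  have h2 := Finset.card_le_card h1
  rcases hA.1 δ with h | h <;> omega

/-- the vertices of `S` of generation `j` -/
noncomputable def gS (j : ℕ) (S : Finset V) : Finset V := S.filter (fun x => X.gv x = j)

theorem gS_card_le {S : Finset V} (hS : S ∈ X.SS0) (j : ℕ) :
    (gS X j S).card ≤ X.bs j * X.aa j S := by
  unfold aa
  rw [Finset.card_eq_sum_card_fiberwise (f := X.dis) (s := gS X j S)
    (t := (S.image X.dis).filter (fun δ => X.gen δ = j))]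
  · calc ∑ b ∈ (S.image X.dis).filter (fun δ => X.gen δ = j),
          ((gS X j S).filter (fun a => X.dis a = b)).card
        ≤ ∑ b ∈ (S.image X.dis).filter (fun δ => X.gen δ = j), X.bs j := by
          apply Finset.sum_le_sum
          intro δ hδ
          have hg : X.gen δ = j := (Finset.mem_filter.1 hδ).2
          refine le_trans (Finset.card_le_card (t := X.part S δ) ?_) ?_
          · intro x hx
            obtain ⟨h1, h2⟩ := Finset.mem_filter.1 hx
            exact Finset.mem_filter.2 ⟨(Finset.mem_filter.1 h1).1, h2⟩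
          · rw [← hg]; exact part_card_le' X hS δ
      _ = X.bs j * ((S.image X.dis).filter (fun δ => X.gen δ = j)).card := by
          rw [Finset.sum_const, smul_eq_mul, mul_comm]
  · intro x hx
    have hx' := Finset.mem_filter.1 (Finset.mem_coe.1 hx)
    apply Finset.mem_coe.2
    exact Finset.mem_filter.2 ⟨Finset.mem_image_of_mem _ hx'.1, hx'.2⟩

theorem sum_gS (S : Finset V) : ∑ j ∈ range (X.R + 1), (gS X j S).card = S.card := by
  have h := Finset.card_eq_sum_card_fiberwise (f := X.gv) (s := S) (t := range (X.R + 1))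
    (by
      intro x _
      apply Finset.mem_coe.2
      exact Finset.mem_range.2 (Nat.lt_succ_of_le (X.gen_le _)))
  rw [h]
  rfl

/-- pairs in a set -/
noncomputable def prs (S : Finset V) : Finset (Sym2 V) :=
  univ.filter (fun e => ¬ e.IsDiag ∧ e.toFinset ⊆ S)

theorem card_prs_le (S : Finset V) : ((prs S).card : ℝ) ≤ (S.card : ℝ) ^ 2 / 2 := by
  have h1 : prs S ⊆ S.offDiag.image Sym2.mk.uncurry := by
    intro e
    induction e using Sym2.ind with
    | _ x y =>
      intro he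
      obtain ⟨-, hd, hs⟩ := Finset.mem_filter.1 he
      rw [Sym2.mk_isDiag_iff] at hd
      have hx : x ∈ S := hs (by rw [Sym2.mem_toFinset]; exact Sym2.mem_mk_left x y)
      have hy : y ∈ S := hs (by rw [Sym2.mem_toFinset]; exact Sym2.mem_mk_right x y)
      exact Finset.mem_image.2 ⟨(x, y), Finset.mem_offDiag.2 ⟨hx, hy, hd⟩, rfl⟩
  have h2 := Finset.card_le_card h1
  have h3 := Sym2.two_mul_card_image_offDiag S
  have h4 : S.offDiag.card = S.card * S.card - S.card := Finset.offDiag_card S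
  have h5 : 2 * (prs S).card ≤ S.card * S.card := by omega
  have h6 : (2 : ℝ) * (prs S).card ≤ S.card * S.card := by exact_mod_cast h5
  nlinarith

theorem pairs_aux (S : Finset V) :
    (X.ein S : ℝ) + ∑ j ∈ range (X.R + 1), (X.ecr j S : ℝ) ≤
      ∑ j ∈ range (X.R + 1), ((gS X j S).card : ℝ) ^ 2 / 2 := by
  -- inner pairs by generation
  have h1 : X.ein S = ∑ j ∈ range (X.R + 1),
      ((X.inner.filter (fun e => e.toFinset ⊆ S)).filter
        (fun e => ∀ x ∈ e, X.gv x = j)).card := by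
    unfold ein
    have hmem : ∀ e ∈ X.inner, ∃ j ≤ X.R, ∀ x ∈ e, X.gv x = j := by
      intro e
      induction e using Sym2.ind with
      | _ x y =>
        intro he
        obtain ⟨-, -, hd, -⟩ := Finset.mem_filter.1 he
        refine ⟨X.gv x, X.gen_le _, ?_⟩
        intro u hu
        unfold gv
        rw [hd u hu x (Sym2.mem_mk_left x y)]
    rw [← Finset.card_biUnion]
    · congr 1
      ext e
      simp only [Finset.mem_biUnion, Finset.mem_filter, Finset.mem_range]
      constructor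
      · rintro ⟨he, hs⟩
        obtain ⟨j, hj, h⟩ := hmem e he
        exact ⟨j, by omega, ⟨he, hs⟩, h⟩
      · rintro ⟨j, -, h, -⟩
        exact h
    · intro i _ j _ hij
      rw [Function.onFun, Finset.disjoint_left]
      intro e he he'
      obtain ⟨-, h⟩ := Finset.mem_filter.1 he
      obtain ⟨-, h'⟩ := Finset.mem_filter.1 he'
      induction e using Sym2.ind with
      | _ x y =>
        exact hij ((h x (Sym2.mem_mk_left x y)).symm.trans (h' x (Sym2.mem_mk_left x y)))
  rw [h1]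
  push_cast
  rw [← Finset.sum_add_distrib]
  apply Finset.sum_le_sum
  intro j _
  refine le_trans ?_ (card_prs_le (gS X j S))
  unfold ecr
  rw [← Nat.cast_add, ← Finset.card_union_of_disjoint]
  · apply Nat.cast_le.2
    apply Finset.card_le_card
    intro e
    induction e using Sym2.ind with
    | _ x y =>
      intro he
      have hsub : ∀ (hs : (s(x, y) : Sym2 V).toFinset ⊆ S)
          (hg : ∀ u ∈ (s(x, y) : Sym2 V), X.gv u = j),
          (s(x, y) : Sym2 V).toFinset ⊆ gS X j S := by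
        intro hs hg u hu
        exact Finset.mem_filter.2 ⟨hs hu, hg u (Sym2.mem_toFinset.1 hu)⟩
      rcases Finset.mem_union.1 he with h | h
      · obtain ⟨h2, hg⟩ := Finset.mem_filter.1 h
        obtain ⟨h3, hs⟩ := Finset.mem_filter.1 h2
        obtain ⟨-, hd, -, -⟩ := Finset.mem_filter.1 h3
        exact Finset.mem_filter.2 ⟨Finset.mem_univ _, hd, hsub hs hg⟩
      · obtain ⟨h3, hs⟩ := Finset.mem_filter.1 h
        obtain ⟨-, hg, ⟨u, hu, v, hv, huv⟩, -⟩ := Finset.mem_filter.1 h3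
        refine Finset.mem_filter.2 ⟨Finset.mem_univ _, ?_, hsub hs hg⟩
        intro hdiag
        rw [Sym2.mk_isDiag_iff] at hdiag
        subst hdiag
        rw [Sym2.mem_iff] at hu hv
        apply huv
        rcases hu with rfl | rfl <;> rcases hv with rfl | rfl <;> rfl
  · rw [Finset.disjoint_left]
    intro e he he'
    obtain ⟨h2, hg⟩ := Finset.mem_filter.1 he
    obtain ⟨h3, hs⟩ := Finset.mem_filter.1 h2
    obtain ⟨-, -, hd, -⟩ := Finset.mem_filter.1 h3
    obtain ⟨h3', -⟩ := Finset.mem_filter.1 he'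
    obtain ⟨-, -, ⟨u, hu, v, hv, huv⟩, -⟩ := Finset.mem_filter.1 h3'
    exact huv (hd u hu v hv)

theorem ff_le_aa (j : ℕ) (S : Finset V) : X.ff j S ≤ X.aa j S := by
  unfold ff aa
  apply Finset.card_le_card
  intro δ hδ
  obtain ⟨-, hg, hc⟩ := Finset.mem_filter.1 hδ
  have hm := X.hm
  have hb : 0 < X.bs j := by unfold bs; split_ifs <;> omega
  rw [← hc] at hb
  obtain ⟨x, hx⟩ := Finset.card_pos.1 hb
  obtain ⟨h1, h2⟩ := Finset.mem_filter.1 hx
  exact Finset.mem_filter.2 ⟨Finset.mem_image.2 ⟨x, h1, h2⟩, hg⟩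

theorem aa_le_gS (j : ℕ) (S : Finset V) : X.aa j S ≤ (gS X j S).card := by
  unfold aa
  have h : (S.image X.dis).filter (fun δ => X.gen δ = j) ⊆ (gS X j S).image X.dis := by
    intro δ hδ
    obtain ⟨h1, h2⟩ := Finset.mem_filter.1 hδ
    obtain ⟨x, hx, rfl⟩ := Finset.mem_image.1 h1
    exact Finset.mem_image.2 ⟨x, Finset.mem_filter.2 ⟨hx, h2⟩, rfl⟩
  exact (Finset.card_le_card h).trans Finset.card_image_le

theorem later_eq (j : ℕ) (S : Finset V) :
    X.later j S = ∑ i ∈ Ico (j + 1) (X.R + 1), (gS X i S).card := by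
  unfold later
  have h := Finset.card_eq_sum_card_fiberwise (f := X.gv) (s := S.filter (fun x => j < X.gv x))
    (t := Ico (j + 1) (X.R + 1))
    (by
      intro x hx
      have hx' := (Finset.mem_filter.1 (Finset.mem_coe.1 hx)).2
      apply Finset.mem_coe.2
      have := X.gen_le (X.dis x)
      unfold gv at hx'
      exact Finset.mem_Ico.2 ⟨hx', Nat.lt_succ_of_le this⟩)
  rw [h]
  apply Finset.sum_congr rfl
  intro i hi
  congr 1
  ext x
  simp only [Finset.mem_filter, gS]
  have := (Finset.mem_Ico.1 hi).1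
  constructor
  · rintro ⟨⟨h1, h2⟩, h3⟩
    exact ⟨h1, h3⟩
  · rintro ⟨h1, h2⟩
    exact ⟨⟨h1, by omega⟩, h2⟩

theorem sum_tri (a : ℕ → ℝ) (ha : ∀ i, 0 ≤ a i) (n : ℕ) :
    ∑ j ∈ range n, a j * ∑ i ∈ Ico (j + 1) n, a i ≤ (∑ j ∈ range n, a j) ^ 2 / 2 := by
  induction n with
  | zero => simp
  | succ n ih =>
    rw [Finset.sum_range_succ, Finset.sum_range_succ (fun j => a j)]
    have h0 : Ico (n + 1) (n + 1) = (∅ : Finset ℕ) := by simp
    rw [h0, Finset.sum_empty, mul_zero, add_zero]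
    have h1 : ∑ j ∈ range n, a j * ∑ i ∈ Ico (j + 1) (n + 1), a i =
        ∑ j ∈ range n, a j * ∑ i ∈ Ico (j + 1) n, a i + (∑ j ∈ range n, a j) * a n := by
      rw [Finset.sum_mul, ← Finset.sum_add_distrib]
      apply Finset.sum_congr rfl
      intro j hj
      have hj' := Finset.mem_range.1 hj
      rw [Finset.sum_Ico_succ_top (by omega)]
      ring
    rw [h1]
    have h2 := ha n
    nlinarith

end PairsAux

open PairsAux

theorem aa_le {S : Finset V} (hS : S ∈ X.SS0) {j : ℕ} (hj : j ≤ X.R) : X.aa j S ≤ X.k j := by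
  obtain ⟨-, -, A, hA, hSA⟩ := Finset.mem_filter.1 hS
  rw [← hA.2 j hj]
  unfold aa
  exact Finset.card_le_card (Finset.filter_subset_filter _ (Finset.image_subset_image hSA))

theorem card_le_aa {S : Finset V} (hS : S ∈ X.SS0) :
    S.card ≤ X.m * ∑ j ∈ range X.R, X.aa j S + X.aa X.R S := by
  rw [← sum_gS X S, Finset.sum_range_succ, Finset.mul_sum]
  apply Nat.add_le_add
  · apply Finset.sum_le_sum
    intro j hj
    have h := gS_card_le X hS j
    have hb : X.bs j = X.m := by unfold bs; rw [if_pos (Finset.mem_range.1 hj)]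
    rw [hb] at h
    exact h
  · have h := gS_card_le X hS X.R
    have hb : X.bs X.R = 1 := by unfold bs; rw [if_neg (lt_irrefl _)]
    rw [hb, one_mul] at h
    exact h

theorem pairs_le {S : Finset V} (hS : S ∈ X.SS0) :
    (X.ein S : ℝ) + ∑ j ∈ range (X.R + 1), (X.ecr j S : ℝ) ≤
      ∑ j ∈ range X.R, ((X.m : ℝ) * X.aa j S) ^ 2 / 2 + (X.aa X.R S : ℝ) ^ 2 / 2 := by
  refine le_trans (pairs_aux X S) ?_
  rw [Finset.sum_range_succ]
  apply add_le_add
  · apply Finset.sum_le_sum
    intro j hj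
    have h := gS_card_le X hS j
    have hb : X.bs j = X.m := by unfold bs; rw [if_pos (Finset.mem_range.1 hj)]
    rw [hb] at h
    have h' : ((gS X j S).card : ℝ) ≤ X.m * X.aa j S := by exact_mod_cast h
    have h0 : (0 : ℝ) ≤ (gS X j S).card := by positivity
    have := pow_le_pow_left₀ h0 h' 2
    linarith
  · have h := gS_card_le X hS X.R
    have hb : X.bs X.R = 1 := by unfold bs; rw [if_neg (lt_irrefl _)]
    rw [hb, one_mul] at h
    have h' : ((gS X X.R S).card : ℝ) ≤ X.aa X.R S := by exact_mod_cast h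
    have h0 : (0 : ℝ) ≤ (gS X X.R S).card := by positivity
    have := pow_le_pow_left₀ h0 h' 2
    linarith

theorem pairs_le_card (S : Finset V) :
    (X.ein S : ℝ) + ∑ j ∈ range (X.R + 1), (X.ecr j S : ℝ) ≤ (S.card : ℝ) ^ 2 / 2 := by
  refine le_trans (pairs_aux X S) ?_
  rw [← Finset.sum_div]
  have h := sum_gS X S
  have h' : (S.card : ℝ) = ∑ j ∈ range (X.R + 1), ((gS X j S).card : ℝ) := by
    rw [← h]; push_cast; rfl
  rw [h']
  have := Finset.sum_sq_le_sq_sum_of_nonneg (s := range (X.R + 1)) (f := fun j => ((gS X j S).card : ℝ))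
    (fun i _ => by positivity)
  linarith

theorem st_le {S : Finset V} (hS : S ∈ X.SS0) :
    ∑ j ∈ range X.R, (X.st j S : ℝ) ≤
      (X.m : ℝ) * (∑ j ∈ range X.R, (X.aa j S : ℝ)) ^ 2 / 2 +
        (∑ j ∈ range X.R, (X.aa j S : ℝ)) * X.aa X.R S := by
  have hstep : ∀ j ∈ range X.R, (X.st j S : ℝ) ≤ (X.m : ℝ) * ((X.aa j S : ℝ) *
      ∑ i ∈ Ico (j + 1) X.R, (X.aa i S : ℝ)) + (X.aa j S : ℝ) * X.aa X.R S := by
    intro j hj
    have hj' := Finset.mem_range.1 hj
    unfold st
    rw [later_eq X j S, Finset.sum_Ico_succ_top (by omega)]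
    push_cast
    have h1 : (X.ff j S : ℝ) ≤ X.aa j S := by exact_mod_cast ff_le_aa X j S
    have h2 : (∑ i ∈ Ico (j + 1) X.R, ((gS X i S).card : ℝ)) ≤
        X.m * ∑ i ∈ Ico (j + 1) X.R, (X.aa i S : ℝ) := by
      rw [Finset.mul_sum]
      apply Finset.sum_le_sum
      intro i hi
      have h := gS_card_le X hS i
      have hb : X.bs i = X.m := by unfold bs; rw [if_pos (Finset.mem_Ico.1 hi).2]
      rw [hb] at h
      exact_mod_cast h
    have h3 : ((gS X X.R S).card : ℝ) ≤ X.aa X.R S := by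
      have h := gS_card_le X hS X.R
      have hb : X.bs X.R = 1 := by unfold bs; rw [if_neg (lt_irrefl _)]
      rw [hb, one_mul] at h
      exact_mod_cast h
    have h4 : (0 : ℝ) ≤ X.ff j S := by positivity
    have h5 : (0 : ℝ) ≤ X.aa j S := by positivity
    have h6 : (0 : ℝ) ≤ ∑ i ∈ Ico (j + 1) X.R, ((gS X i S).card : ℝ) :=
      Finset.sum_nonneg (fun i _ => by positivity)
    have h7 : (0 : ℝ) ≤ ((gS X X.R S).card : ℝ) := by positivity
    calc (X.ff j S : ℝ) * (∑ i ∈ Ico (j + 1) X.R, ((gS X i S).card : ℝ) +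
            ((gS X X.R S).card : ℝ))
        ≤ (X.aa j S : ℝ) * (X.m * ∑ i ∈ Ico (j + 1) X.R, (X.aa i S : ℝ) + X.aa X.R S) := by
          apply mul_le_mul h1 (add_le_add h2 h3) (add_nonneg h6 h7) h5
      _ = _ := by ring
  refine le_trans (Finset.sum_le_sum hstep) ?_
  rw [Finset.sum_add_distrib, ← Finset.mul_sum, ← Finset.sum_mul]
  have h := sum_tri (fun j => (X.aa j S : ℝ)) (fun i => by positivity) X.R
  have hm0 : (0 : ℝ) ≤ X.m := by positivity
  have := mul_le_mul_of_nonneg_left h hm0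
  have e : (X.m : ℝ) * (∑ j ∈ range X.R, (X.aa j S : ℝ)) ^ 2 / 2 =
    X.m * ((∑ j ∈ range X.R, (X.aa j S : ℝ)) ^ 2 / 2) := by ring
  rw [e]
  linarith

theorem st_le_card (S : Finset V) : ∑ j ∈ range X.R, (X.st j S : ℝ) ≤ (S.card : ℝ) ^ 2 := by
  have h1 : ∀ j ∈ range X.R, (X.st j S : ℝ) ≤ ((gS X j S).card : ℝ) * S.card := by
    intro j _
    unfold st
    push_cast
    have h2 : (X.ff j S : ℝ) ≤ (gS X j S).card := by
      exact_mod_cast (ff_le_aa X j S).trans (aa_le_gS X j S)
    have h3 : (X.later j S : ℝ) ≤ S.card := by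
      unfold later
      exact_mod_cast Finset.card_filter_le _ _
    exact mul_le_mul h2 h3 (by positivity) (by positivity)
  refine le_trans (Finset.sum_le_sum h1) ?_
  rw [← Finset.sum_mul, pow_two]
  apply mul_le_mul_of_nonneg_right _ (by positivity)
  have h := sum_gS X S
  rw [Finset.sum_range_succ] at h
  have h' : (∑ j ∈ range X.R, (gS X j S).card) ≤ S.card := by omega
  exact_mod_cast h'

theorem cost_ge (S : Finset V) :
    ∑ j ∈ range (X.R + 1), (X.y j : ℝ) * X.aa j S ≤ X.cost S := by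
  unfold cost
  have h1 : ∑ δ ∈ S.image X.dis, (X.y (X.gen δ) : ℝ) ≤
      ∑ δ ∈ S.image X.dis, ((X.y (X.gen δ) : ℝ) +
    if (X.part S δ).card < X.bs (X.gen δ) then (X.z (X.gen δ) : ℝ) * (X.part S δ).card else 0) := by
    apply Finset.sum_le_sum
    intro δ _
    have : (0 : ℝ) ≤ if (X.part S δ).card < X.bs (X.gen δ) then
      (X.z (X.gen δ) : ℝ) * (X.part S δ).card else 0 := by
      split_ifs <;> positivity
    linarith
  refine le_trans (le_of_eq ?_) h1
  rw [← Finset.sum_fiberwise_of_maps_to (s := S.image X.dis) (t := range (X.R + 1))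
    (g := X.gen) (fun δ _ => Finset.mem_range.2 (Nat.lt_succ_of_le (X.gen_le δ)))]
  apply Finset.sum_congr rfl
  intro j _
  unfold aa
  rw [Finset.sum_congr rfl (g := fun _ => (X.y j : ℝ))]
  · rw [Finset.sum_const, nsmul_eq_mul, mul_comm]
  · intro δ hδ
    rw [(Finset.mem_filter.1 hδ).2]

/-- the static inequality -/
theorem star_ineq {g Γ Tm lam c L ρ η s0 K1 : ℝ} (hg : 0 ≤ g) (hΓ : 0 ≤ Γ) (hlam : 0 ≤ lam)
    (hc : 0 ≤ c) (hL : 0 < L) (hρ : 0 < ρ) (hη : 0 ≤ η) (hs0 : 0 ≤ s0) (hK1 : 0 ≤ K1)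
    (hy : ∀ j ≤ X.R, (1 - η) * L ≤ X.y j)
    (hk1 : ∀ j < X.R, (X.k j : ℝ) ≤ K1)
    (h1 : lam + s0 / 2 + c * s0 ≤ g)
    (h2 : X.m * Tm ≤ ρ / 2 * L * s0)
    (h3 : (Γ + g + lam) * X.m + X.m ^ 2 * K1 / 2 + η * L ≤ ρ / 2 * L)
    (h4 : ∀ u τ : ℝ, 0 ≤ u → u ≤ X.k X.R → 0 ≤ τ → τ ≤ ∑ j ∈ range X.R, (X.k j : ℝ) →
      u ^ 2 / 2 + c * X.m * τ ^ 2 / 2 + c * τ * u ≤ (1 - ρ) * L * (u + τ))
    {S : Finset V} (hS : S ∈ X.SS0) :
    X.mu g Γ Tm S + g * S.card + S.card * lam +
      (X.ein S + ∑ j ∈ range (X.R + 1), (X.ecr j S : ℝ)) +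
      c * ∑ j ∈ range X.R, (X.st j S : ℝ) ≤ X.cost S := by
  have hm := X.hm
  have hm2 : (2 : ℝ) ≤ X.m := by exact_mod_cast hm
  have hs : (0 : ℝ) ≤ S.card := by positivity
  rcases le_or_gt (S.card : ℝ) s0 with hcase | hcase
  · have hmu : X.mu g Γ Tm S ≤ X.cost S - (2 * g + Γ) * S.card + Γ * S.card := by
      unfold mu
      have := min_le_left (X.cost S - (2 * g + Γ) * S.card) Tm
      linarith
    have hp := X.pairs_le_card S
    have hst := X.st_le_card S
    have hp' : (S.card : ℝ) ^ 2 / 2 ≤ S.card * (s0 / 2) := by nlinarith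
    have hst' : c * ∑ j ∈ range X.R, (X.st j S : ℝ) ≤ c * (S.card * s0) := by
      apply mul_le_mul_of_nonneg_left _ hc
      nlinarith
    have h1' := mul_le_mul_of_nonneg_left h1 hs
    nlinarith
  · have hmu : X.mu g Γ Tm S ≤ Tm + Γ * S.card := by
      unfold mu
      have := min_le_right (X.cost S - (2 * g + Γ) * S.card) Tm
      linarith
    set τ : ℝ := ∑ j ∈ range X.R, (X.aa j S : ℝ) with hτ
    set u : ℝ := (X.aa X.R S : ℝ) with hu
    have hτ0 : 0 ≤ τ := Finset.sum_nonneg (fun j _ => by positivity)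
    have hu0 : 0 ≤ u := by positivity
    have huk : u ≤ X.k X.R := by
      rw [hu]; exact_mod_cast X.aa_le hS (le_refl _)
    have hτk : τ ≤ ∑ j ∈ range X.R, (X.k j : ℝ) := by
      rw [hτ]
      apply Finset.sum_le_sum
      intro j hj
      exact_mod_cast X.aa_le hS (le_of_lt (Finset.mem_range.1 hj))
    have hcard : (S.card : ℝ) ≤ X.m * τ + u := by
      have h := X.card_le_aa hS
      rw [hτ, hu]
      exact_mod_cast h
    have hcard' : (S.card : ℝ) ≤ X.m * (τ + u) := by nlinarith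
    have hp := X.pairs_le hS
    have hp' : ∑ j ∈ range X.R, ((X.m : ℝ) * X.aa j S) ^ 2 / 2 ≤ X.m ^ 2 * K1 / 2 * τ := by
      rw [hτ, Finset.mul_sum]
      apply Finset.sum_le_sum
      intro j hj
      have hj' := Finset.mem_range.1 hj
      have h5 : (X.aa j S : ℝ) ≤ K1 := by
        have : (X.aa j S : ℝ) ≤ X.k j := by exact_mod_cast X.aa_le hS (le_of_lt hj')
        exact this.trans (hk1 j hj')
      have h6 : (0 : ℝ) ≤ X.aa j S := by positivity
      have h7 : (X.aa j S : ℝ) * X.aa j S ≤ K1 * X.aa j S := mul_le_mul_of_nonneg_right h5 h6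
      have h8 : (0 : ℝ) ≤ (X.m : ℝ) ^ 2 := by positivity
      have h9 := mul_le_mul_of_nonneg_left h7 h8
      nlinarith
    have hst := X.st_le hS
    have hst' := mul_le_mul_of_nonneg_left hst hc
    have hco := X.cost_ge S
    have hco' : (1 - η) * L * (τ + u) ≤ X.cost S := by
      refine le_trans ?_ hco
      rw [Finset.sum_range_succ, mul_add, hτ, Finset.mul_sum]
      apply add_le_add
      · apply Finset.sum_le_sum
        intro j hj
        exact mul_le_mul_of_nonneg_right (hy j (le_of_lt (Finset.mem_range.1 hj)))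
          (by positivity)
      · exact mul_le_mul_of_nonneg_right (hy X.R (le_refl _)) (by positivity)
    have h4' := h4 u τ hu0 huk hτ0 hτk
    have hTm : Tm ≤ ρ / 2 * L * (τ + u) := by
      have h5 : 0 < ρ / 2 * L := by positivity
      have h6 : (X.m : ℝ) * Tm ≤ X.m * (ρ / 2 * L * (τ + u)) := by
        calc (X.m : ℝ) * Tm ≤ ρ / 2 * L * s0 := h2
          _ ≤ ρ / 2 * L * (X.m * (τ + u)) :=
            mul_le_mul_of_nonneg_left (hcase.le.trans hcard') h5.le
          _ = _ := by ring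
      exact le_of_mul_le_mul_left h6 (by linarith)
    have h3' := mul_le_mul_of_nonneg_right h3 (add_nonneg hτ0 hu0)
    have hG : (Γ + g + lam) * S.card ≤ (Γ + g + lam) * (X.m * (τ + u)) :=
      mul_le_mul_of_nonneg_left hcard' (by positivity)
    have hK : X.m ^ 2 * K1 / 2 * τ ≤ X.m ^ 2 * K1 / 2 * (τ + u) := by
      apply mul_le_mul_of_nonneg_left _ (by positivity)
      linarith
    have e1 : c * ((X.m : ℝ) * τ ^ 2 / 2 + τ * u) = c * X.m * τ ^ 2 / 2 + c * τ * u := by ring
    rw [e1] at hst'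
    nlinarith

end Setup

end Pool.Agent.Helper75.CG
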